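import Pool.Agent.W544.PG.Defs2

set_option autoImplicit false

open Matrix Finset Module

namespace Pool.Agent.W131.PG

open Pool.Agent.W544.PG

theorem mC_map {n : ℕ} (P : Matrix (Fin n) (Fin n) ℚ) (σ : ℂ ≃+* ℂ) : (mC P).map σ = mC P := by
  ext i j
  simp only [mC, Matrix.map_apply]
  exact map_ratCast σ _

theorem gal : S_hk → S_gal := by
  intro hhk n T σ
  refine ⟨?_, ?_⟩
  · have h1 := congrArg (fun M : Matrix (Fin n) (Fin n) ℂ => M.map σ) T.skew
    have h2 : (T.xᵀ * mC T.Q + mC T.Q * T.x).map σ =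
        (T.x.map σ)ᵀ * mC T.Q + mC T.Q * T.x.map σ := by
      rw [Matrix.map_add σ (map_add σ), Matrix.map_mul, Matrix.map_mul, mC_map,
        Matrix.transpose_map]
    have h3 : (0 : Matrix (Fin n) (Fin n) ℂ).map σ = 0 := Matrix.map_zero σ (map_zero σ)
    rw [h2, h3] at h1
    exact h1
  · intro k t ht J
    have h1 := (hhk n k T t).1 ht J
    have h2 := congrArg σ h1
    rw [map_zero, map_sum] at h2
    rw [← h2]
    refine Finset.sum_congr rfl fun j _ => ?_
    rw [map_sum]
    refine Finset.sum_congr rfl fun l _ => ?_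
    rw [map_mul, map_ratCast, Matrix.map_apply]

end Pool.Agent.W131.PG
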